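import Pool.Agent.H73.PHS.Stmts

set_option autoImplicit false

open Set Filter Topology MeasureTheory Metric

namespace Pool.PHS

theorem deg_det (hJ : JACStmt) {n : ℕ} {F : Cn n → Cn n} {z : Cn n}
    (h : DifferentiableAt ℂ F z) : (fderiv ℝ F z).det = Complex.normSq (jac F z) := by
  rw [h.fderiv_restrictScalars ℝ, hJ n]
  rfl

theorem DEG_thm (h1 : HOMStmt) (h2 : JACStmt) (h3 : SMOStmt) : DEGStmt := by
  intro n F H ψ U Q hU hF hH hψ hψ0 hQ hQU hz
  have hF2 := (h3 n (Cn n) F U hU hF).2.2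
  have hH2 := (h3 n (Cn n) H U hU hH).2.2
  have h := h1 (Cn n) volume F H ψ U Q hU hF2 hH2 hψ hψ0 hQ hQU hz
  have e1 : ∫ z in U, ψ (F z) * Complex.normSq (jac F z) =
      ∫ z in U, ψ (F z) * (fderiv ℝ F z).det := by
    apply setIntegral_congr_fun hU.measurableSet
    intro z hz
    show ψ (F z) * Complex.normSq (jac F z) = ψ (F z) * (fderiv ℝ F z).det
    rw [deg_det h2 (hF.differentiableAt (hU.mem_nhds hz))]
  have e2 : ∫ z in U, ψ (F z + H z) * Complex.normSq (jac (fun y => F y + H y) z) =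
      ∫ z in U, ψ (F z + H z) * (fderiv ℝ (fun y => F y + H y) z).det := by
    apply setIntegral_congr_fun hU.measurableSet
    intro z hz
    show ψ (F z + H z) * Complex.normSq (jac (fun y => F y + H y) z) =
      ψ (F z + H z) * (fderiv ℝ (fun y => F y + H y) z).det
    have hd : DifferentiableAt ℂ (fun y => F y + H y) z :=
      (hF.differentiableAt (hU.mem_nhds hz)).add (hH.differentiableAt (hU.mem_nhds hz))
    rw [deg_det h2 hd]
  rw [e1, e2]
  exact h

end Pool.PHS
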